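import Mathlib

set_option autoImplicit false

/-!
Shifts of the contents of holes on one level, and the counting of classes by them.
-/

namespace Pool.Agent.Helper66.NS

open Finset

variable {A : Type} [AddCommGroup A] {d N : ℕ}

/-- the values of the nodes, level by level -/
def val (x0 : Fin N → A) (g : Fin d → Equiv.Perm (Fin N)) (I : Fin d × A → A) : ℕ → Fin N → A
  | 0 => x0
  | i + 1 => fun u => ∑ s, I (s, val x0 g I i (g s u))

/-- the values on the levels up to `i` are pairwise distinct -/
def Dist (x0 : Fin N → A) (g : Fin d → Equiv.Perm (Fin N)) (i : ℕ) (I : Fin d × A → A) : Prop :=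
  ∀ j ≤ i, ∀ j' ≤ i, ∀ u u', val x0 g I j u = val x0 g I j' u' → j = j' ∧ u = u'

/-- the cell which node `u` of level `i + 1` reads through the table `σ u` -/
def hole (x0 : Fin N → A) (g : Fin d → Equiv.Perm (Fin N)) (i : ℕ) (σ : Fin N → Fin d)
    (I : Fin d × A → A) (u : Fin N) : Fin d × A :=
  (σ u, val x0 g I i (g (σ u) u))

section

variable [DecidableEq A]

/-- add `c u` to the content of the hole of `u`, for all `u` in `D` -/
def shift (x0 : Fin N → A) (g : Fin d → Equiv.Perm (Fin N)) (i : ℕ) (σ : Fin N → Fin d)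
    (D : Finset (Fin N)) (c : D → A) (I : Fin d × A → A) : Fin d × A → A :=
  fun x => I x + ∑ u : D, if hole x0 g i σ I u = x then c u else 0

variable {x0 : Fin N → A} {g : Fin d → Equiv.Perm (Fin N)} {i : ℕ} {σ : Fin N → Fin d}
  {D : Finset (Fin N)} {I : Fin d × A → A}

omit [DecidableEq A] in
theorem cell_inj (hI : Dist x0 g i I) {s s' : Fin d} {u u' : Fin N}
    (h : ((s, val x0 g I i (g s u)) : Fin d × A) = (s', val x0 g I i (g s' u'))) :
    s = s' ∧ u = u' := by
  obtain ⟨h1, h2⟩ := Prod.ext_iff.1 h
  simp only at h1 h2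
  subst h1
  refine ⟨rfl, (g s).injective (hI i le_rfl i le_rfl _ _ h2).2⟩

omit [DecidableEq A] in
theorem hole_inj (hI : Dist x0 g i I) {u u' : Fin N}
    (h : hole x0 g i σ I u = hole x0 g i σ I u') : u = u' := (cell_inj hI h).2

theorem shift_off {c : D → A} {x : Fin d × A} (h : ∀ u ∈ D, hole x0 g i σ I u ≠ x) :
    shift x0 g i σ D c I x = I x := by
  unfold shift
  rw [Finset.sum_eq_zero, add_zero]
  intro u _
  rw [if_neg (h u u.2)]

theorem shift_on (hI : Dist x0 g i I) {c : D → A} (u : D) :
    shift x0 g i σ D c I (hole x0 g i σ I u) = I (hole x0 g i σ I u) + c u := by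
  unfold shift
  rw [Finset.sum_eq_single u]
  · rw [if_pos rfl]
  · intro v _ hv
    rw [if_neg]
    intro h
    exact hv (Subtype.ext (hole_inj hI h))
  · intro h
    exact absurd (Finset.mem_univ u) h

theorem val_shift (hI : Dist x0 g i I) (c : D → A) :
    ∀ j ≤ i, val x0 g (shift x0 g i σ D c I) j = val x0 g I j := by
  intro j
  induction j with
  | zero => intro _; rfl
  | succ j ih =>
    intro hj
    have h1 := ih (by omega)
    funext u
    simp only [val, h1]
    refine Finset.sum_congr rfl fun s _ => ?_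
    refine shift_off fun v _ h => ?_
    have h2 := (Prod.ext_iff.1 h).2
    have h3 := (hI i le_rfl j (by omega) _ _ h2).1
    omega

theorem hole_shift (hI : Dist x0 g i I) (c : D → A) (u : Fin N) :
    hole x0 g i σ (shift x0 g i σ D c I) u = hole x0 g i σ I u := by
  unfold hole
  rw [val_shift hI c i le_rfl]

theorem dist_shift (hI : Dist x0 g i I) (c : D → A) : Dist x0 g i (shift x0 g i σ D c I) := by
  intro j hj j' hj' u u' h
  rw [val_shift hI c j hj, val_shift hI c j' hj'] at h
  exact hI j hj j' hj' u u' h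

theorem shift_zero : shift x0 g i σ D 0 I = I := by
  funext x
  unfold shift
  simp

theorem shift_shift (hI : Dist x0 g i I) (c c' : D → A) :
    shift x0 g i σ D c (shift x0 g i σ D c' I) = shift x0 g i σ D (c' + c) I := by
  funext x
  have h : ∀ u : D, hole x0 g i σ (shift x0 g i σ D c' I) u = hole x0 g i σ I u :=
    fun u => hole_shift hI c' u
  show shift x0 g i σ D c' I x + ∑ u : D, (if hole x0 g i σ (shift x0 g i σ D c' I) u = x then c u
    else 0) = _
  simp only [h]
  unfold shift
  rw [add_assoc, ← Finset.sum_add_distrib]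
  congr 1
  refine Finset.sum_congr rfl fun u _ => ?_
  split_ifs
  · rfl
  · rw [add_zero]

theorem shift_neg (hI : Dist x0 g i I) (c : D → A) :
    shift x0 g i σ D (-c) (shift x0 g i σ D c I) = I := by
  rw [shift_shift hI, add_neg_cancel, shift_zero]

theorem shift_inj (hI : Dist x0 g i I) {c c' : D → A}
    (h : shift x0 g i σ D c I = shift x0 g i σ D c' I) : c = c' := by
  funext u
  have h1 := congrFun h (hole x0 g i σ I u)
  rw [shift_on hI, shift_on hI] at h1
  exact add_left_cancel h1

/-- the values on the next level: the nodes in `D` move by `c` -/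
theorem val_succ_mem (hI : Dist x0 g i I) (c : D → A) (u : D) :
    val x0 g (shift x0 g i σ D c I) (i + 1) u = val x0 g I (i + 1) u + c u := by
  simp only [val, val_shift hI c i le_rfl]
  have h : ∀ s, shift x0 g i σ D c I (s, val x0 g I i (g s u)) =
      I (s, val x0 g I i (g s u)) + if σ u = s then c u else 0 := by
    intro s
    by_cases hs : σ u = s
    · subst hs
      rw [if_pos rfl]
      exact shift_on hI u
    · rw [if_neg hs, add_zero]
      refine shift_off fun v _ hv => ?_
      obtain ⟨h1, h2⟩ := cell_inj hI hv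
      subst h2
      exact hs h1
  simp only [h]
  rw [Finset.sum_add_distrib]
  congr 1
  simp

/-- the values on the next level: the nodes outside `D` keep their values -/
theorem val_succ_not_mem (hI : Dist x0 g i I) (c : D → A) {u : Fin N} (hu : u ∉ D) :
    val x0 g (shift x0 g i σ D c I) (i + 1) u = val x0 g I (i + 1) u := by
  simp only [val, val_shift hI c i le_rfl]
  refine Finset.sum_congr rfl fun s _ => ?_
  refine shift_off fun v hv h => ?_
  obtain ⟨_, h2⟩ := cell_inj hI h
  subst h2
  exact hu hv

end

/-- **Counting of classes.**  If every class (orbit of the shifts) contains at most `B` members of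
`G`, then `G` has at most `B / |A| ^ |D|` times the number of all instances. -/
theorem card_le [DecidableEq A] [Fintype A] {x0 : Fin N → A} {g : Fin d → Equiv.Perm (Fin N)} {i : ℕ}
    {σ : Fin N → Fin d} {D : Finset (Fin N)} (G : Finset (Fin d × A → A))
    (hG : ∀ I ∈ G, Dist x0 g i I) (B : ℕ)
    (hB : ∀ I ∈ G, (univ.filter fun c : D → A => shift x0 g i σ D c I ∈ G).card ≤ B) :
    G.card * Fintype.card A ^ D.card ≤ B * Fintype.card (Fin d × A → A) := by
  classical
  -- the set of all instances with distinct levels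
  set Q : Finset (Fin d × A → A) := univ.filter fun I => Dist x0 g i I with hQ
  have hmem : ∀ I, I ∈ Q ↔ Dist x0 g i I := fun I => by rw [hQ, Finset.mem_filter]; simp
  -- every orbit contains at most `B` members of `G`
  have hB' : ∀ I ∈ Q, (univ.filter fun c : D → A => shift x0 g i σ D c I ∈ G).card ≤ B := by
    intro I hI
    rcases Finset.eq_empty_or_nonempty (univ.filter fun c : D → A => shift x0 g i σ D c I ∈ G) with
      h | ⟨c₀, hc₀⟩
    · rw [h]; simp
    · have hI' := (hmem I).1 hI
      have h0 : shift x0 g i σ D c₀ I ∈ G := (Finset.mem_filter.1 hc₀).2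
      refine le_trans ?_ (hB _ h0)
      refine Finset.card_le_card_of_injOn (fun c => c - c₀) ?_ ?_
      · intro c hc
        rw [Finset.mem_coe, Finset.mem_filter] at hc ⊢
        refine ⟨Finset.mem_univ _, ?_⟩
        rw [shift_shift hI', add_sub_cancel]
        exact hc.2
      · intro c _ c' _ h
        exact sub_left_injective h
  -- double counting
  have h1 : ∑ I ∈ Q, (univ.filter fun c : D → A => shift x0 g i σ D c I ∈ G).card =
      ∑ c : D → A, (Q.filter fun I => shift x0 g i σ D c I ∈ G).card := by
    simp only [Finset.card_filter]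
    exact Finset.sum_comm
  have h2 : ∀ c : D → A, (Q.filter fun I => shift x0 g i σ D c I ∈ G).card = G.card := by
    intro c
    refine Finset.card_bij (fun I _ => shift x0 g i σ D c I) ?_ ?_ ?_
    · intro I hI
      exact (Finset.mem_filter.1 hI).2
    · intro I hI I' hI' h
      have a1 := (hmem I).1 (Finset.mem_filter.1 hI).1
      have a2 := (hmem I').1 (Finset.mem_filter.1 hI').1
      rw [← shift_neg (σ := σ) (D := D) a1 c, ← shift_neg (σ := σ) (D := D) a2 c, h]
    · intro J hJ
      have a1 := hG J hJ
      have a2 : shift x0 g i σ D c (shift x0 g i σ D (-c) J) = J := by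
        rw [shift_shift a1, neg_add_cancel, shift_zero]
      refine ⟨shift x0 g i σ D (-c) J, ?_, a2⟩
      rw [Finset.mem_filter, hmem]
      refine ⟨dist_shift a1 _, ?_⟩
      rw [a2]
      exact hJ
  have h3 : ∑ c : D → A, (Q.filter fun I => shift x0 g i σ D c I ∈ G).card =
      G.card * Fintype.card A ^ D.card := by
    rw [Finset.sum_congr rfl fun c _ => h2 c, Finset.sum_const, Finset.card_univ,
      Fintype.card_fun, Fintype.card_coe, smul_eq_mul, mul_comm]
  rw [← h3, ← h1]
  calc ∑ I ∈ Q, (univ.filter fun c : D → A => shift x0 g i σ D c I ∈ G).card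
      ≤ ∑ _I ∈ Q, B := Finset.sum_le_sum fun I hI => hB' I hI
    _ = B * Q.card := by rw [Finset.sum_const, smul_eq_mul, mul_comm]
    _ ≤ B * Fintype.card (Fin d × A → A) := Nat.mul_le_mul le_rfl (Finset.card_le_univ Q)

/-- the choices of a table for the nodes in `D` (with the value `s0` at the other nodes) -/
def sel (s0 : Fin d) (D : Finset (Fin N)) : Finset (Fin N → Fin d) :=
  Fintype.piFinset fun u => if u ∈ D then univ else {s0}

theorem mem_sel {s0 : Fin d} {D : Finset (Fin N)} {σ : Fin N → Fin d} :
    σ ∈ sel s0 D ↔ ∀ u, u ∉ D → σ u = s0 := by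
  unfold sel
  rw [Fintype.mem_piFinset]
  refine forall_congr' fun u => ?_
  by_cases h : u ∈ D
  · simp [h]
  · simp [h]

theorem card_sel (s0 : Fin d) (D : Finset (Fin N)) : (sel s0 D).card = d ^ D.card := by
  unfold sel
  rw [Fintype.card_piFinset]
  have h : ∀ u : Fin N, (if u ∈ D then (univ : Finset (Fin d)) else {s0}).card =
      if u ∈ D then d else 1 := by
    intro u
    split_ifs
    · simp
    · simp
  simp only [h]
  rw [Finset.prod_ite, Finset.prod_const, Finset.prod_const_one, mul_one]
  simp

/-- **Union over the types.**  If every member of `Good` has a type (a level, a set of `a` nodes, a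
table for each of them, two states), and the members of each type are at most `B / K` times `n`,
then the number of good instances is at most `R * (N choose a) * d ^ a * |S| ^ 2 * B / K` times
`n`. -/
theorem union_le {X S : Type} [DecidableEq X] [Fintype S] (s0 : Fin d) (R a B K n : ℕ)
    (Good : Finset X) (G : Fin R → Finset (Fin N) → (Fin N → Fin d) → S → S → Finset X)
    (hc : ∀ I ∈ Good, ∃ (i : Fin R) (D : Finset (Fin N)) (σ : Fin N → Fin d) (s₁ s₂ : S),
      D.card = a ∧ (∀ u, u ∉ D → σ u = s0) ∧ I ∈ G i D σ s₁ s₂)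
    (hG : ∀ (i : Fin R) (D : Finset (Fin N)) (σ : Fin N → Fin d) (s₁ s₂ : S), D.card = a →
      (G i D σ s₁ s₂).card * K ≤ B * n) :
    Good.card * K ≤ R * N.choose a * d ^ a * Fintype.card S ^ 2 * B * n := by
  classical
  set P : Finset (Finset (Fin N)) := powersetCard a univ with hP
  have hPm : ∀ D, D ∈ P ↔ D.card = a := fun D => by rw [hP, mem_powersetCard]; simp
  set U : Finset (Fin R × (Σ _ : Finset (Fin N), (Fin N → Fin d)) × S × S) :=
    (univ : Finset (Fin R)) ×ˢ ((P.sigma fun D => sel s0 D) ×ˢ (univ : Finset (S × S))) with hU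
  have hcard : U.card = R * N.choose a * d ^ a * Fintype.card S ^ 2 := by
    rw [hU, card_product, card_product, card_sigma, card_univ, card_univ, Fintype.card_prod,
      Fintype.card_fin]
    have h1 : ∑ D ∈ P, (sel s0 D).card = N.choose a * d ^ a := by
      rw [Finset.sum_congr rfl fun D hD => by rw [card_sel, (hPm D).1 hD], Finset.sum_const,
        hP, card_powersetCard, card_univ, Fintype.card_fin, smul_eq_mul]
    rw [h1]
    ring
  have hsub : Good ⊆ U.biUnion fun t => G t.1 t.2.1.1 t.2.1.2 t.2.2.1 t.2.2.2 := by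
    intro I hI
    obtain ⟨i, D, σ, s₁, s₂, h1, h2, h3⟩ := hc I hI
    rw [mem_biUnion]
    refine ⟨(i, ⟨D, σ⟩, s₁, s₂), ?_, h3⟩
    rw [hU, mem_product, mem_product, mem_sigma]
    exact ⟨mem_univ _, ⟨(hPm D).2 h1, mem_sel.2 h2⟩, mem_univ _⟩
  calc Good.card * K ≤ (∑ t ∈ U, (G t.1 t.2.1.1 t.2.1.2 t.2.2.1 t.2.2.2).card) * K :=
        Nat.mul_le_mul ((card_le_card hsub).trans card_biUnion_le) le_rfl
    _ = ∑ t ∈ U, (G t.1 t.2.1.1 t.2.1.2 t.2.2.1 t.2.2.2).card * K := by rw [sum_mul]
    _ ≤ ∑ _t ∈ U, B * n := by
        refine sum_le_sum fun t ht => hG _ _ _ _ _ ?_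
        rw [hU, mem_product, mem_product, mem_sigma] at ht
        exact (hPm _).1 ht.2.1.1
    _ = U.card * (B * n) := by rw [sum_const, smul_eq_mul]
    _ = R * N.choose a * d ^ a * Fintype.card S ^ 2 * B * n := by rw [hcard]; ring

end Pool.Agent.Helper66.NS
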