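import Pool.Agent.Helper74.NS.PushDefs

/-!
# Computations with a pushdown store as derivations
-/

namespace Pool.Agent.Helper66.NS

open Pool.Agent.Helper74.NS

variable {C A Q Γ : Type}

/-- Derivations. `true` = balanced (the stack is the same at the end and never lower), `false` = open (the stack at
the end is arbitrary, but the stack at the start is never touched). The number is the number of steps. -/
inductive Der (P : NPBP C A Q Γ) (I : C → A) : Bool → Q → Q → List C → ℕ → Prop
  | nil (b : Bool) (p : Q) : Der P I b p p [] 0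
  | ask (b : Bool) (p r q : Q) (c : C) (next : A → Set Q) (l : List C) (n : ℕ) :
      P.act p = .ask c next → r ∈ next (I c) → Der P I b r q l n → Der P I b p q (c :: l) (n + 1)
  | pushpop (b : Bool) (p p1 p2 r q : Q) (γ : Γ) (next : Set (Γ × Q)) (next' : Γ → Set Q) (l1 l2 : List C)
      (n1 n2 : ℕ) : P.act p = .push next → (γ, p1) ∈ next → Der P I true p1 p2 l1 n1 →
      P.act p2 = .pop next' → r ∈ next' γ → Der P I b r q l2 n2 → Der P I b p q (l1 ++ l2) (n1 + n2 + 2)
  | pushopen (p p1 q : Q) (γ : Γ) (next : Set (Γ × Q)) (l : List C) (n : ℕ) :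
      P.act p = .push next → (γ, p1) ∈ next → Der P I false p1 q l n → Der P I false p q l (n + 1)

variable {P : NPBP C A Q Γ} {I : C → A}

theorem nrun_append {x y z : Q × List Γ} {l l' : List C} {n n' : ℕ} (h : P.Run I x l n y)
    (h' : P.Run I y l' n' z) : P.Run I x (l ++ l') (n + n') z := by
  induction h with
  | nil x =>
    rw [List.nil_append, Nat.zero_add]
    exact h'
  | ask q q' st c next l n y h1 h2 _ ih =>
    rw [List.cons_append, Nat.succ_add_eq_add_succ]
    exact NPBP.Run.ask q q' st c next _ _ z h1 h2 (ih h')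
  | push q q' st γ next l n y h1 h2 _ ih =>
    rw [Nat.succ_add_eq_add_succ]
    exact NPBP.Run.push q q' st γ next _ _ z h1 h2 (ih h')
  | pop q q' st γ next l n y h1 h2 _ ih =>
    rw [Nat.succ_add_eq_add_succ]
    exact NPBP.Run.pop q q' st γ next _ _ z h1 h2 (ih h')

/-- From derivations to computations. -/
theorem run_of_der {b : Bool} {p q : Q} {l : List C} {n : ℕ} (h : Der P I b p q l n) :
    ∀ st : List Γ, ∃ st' : List Γ, (b = true → st' = []) ∧ P.Run I (p, st) l n (q, st' ++ st) := by
  induction h with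
  | nil b p => exact fun st => ⟨[], fun _ => rfl, NPBP.Run.nil _⟩
  | ask b p r q c next l n h1 h2 _ ih =>
    intro st
    obtain ⟨st', h3, h4⟩ := ih st
    exact ⟨st', h3, NPBP.Run.ask p r st c next l n _ h1 h2 h4⟩
  | pushpop b p p1 p2 r q γ next next' l1 l2 n1 n2 h1 h2 _ h4 h5 _ ih1 ih2 =>
    intro st
    obtain ⟨st1, h7, h8⟩ := ih1 (γ :: st)
    obtain ⟨st2, h9, h10⟩ := ih2 st
    rw [h7 rfl, List.nil_append] at h8
    have h11 := NPBP.Run.push p p1 st γ next _ _ _ h1 h2
      (nrun_append h8 (NPBP.Run.pop p2 r st γ next' l2 n2 _ h4 h5 h10))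
    have e : n1 + (n2 + 1) + 1 = n1 + n2 + 2 := by omega
    rw [e] at h11
    exact ⟨st2, h9, h11⟩
  | pushopen p p1 q γ next l n h1 h2 _ ih =>
    intro st
    obtain ⟨st', _, h4⟩ := ih (γ :: st)
    refine ⟨st' ++ [γ], fun h => absurd h (by simp), ?_⟩
    rw [List.append_assoc, List.singleton_append]
    exact NPBP.Run.push p p1 st γ next l n _ h1 h2 h4

/-- From computations to derivations: either the stack at the start is never touched, or there is a first time when it
is touched. -/
theorem der_of_run (N : ℕ) : ∀ (p : Q) (st : List Γ) (l : List C) (n : ℕ) (y : Q × List Γ), n < N →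
    P.Run I (p, st) l n y → Der P I false p y.1 l n ∨
      ∃ (γ : Γ) (st0 : List Γ) (p2 : Q) (next' : Γ → Set Q) (r : Q) (l1 l2 : List C) (n1 n2 : ℕ),
        st = γ :: st0 ∧ Der P I true p p2 l1 n1 ∧ P.act p2 = .pop next' ∧ r ∈ next' γ ∧
          P.Run I (r, st0) l2 n2 y ∧ l = l1 ++ l2 ∧ n = n1 + n2 + 1 := by
  induction N with
  | zero => intro p st l n y h; omega
  | succ N ih =>
    intro p st l n y hn hrun
    cases hrun with
    | nil => exact Or.inl (Der.nil false p)
    | ask _ q' _ c next l n _ h1 h2 h3 =>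
      rcases ih q' st l n y (by omega) h3 with h | ⟨γ, st0, p2, next', r, l1, l2, n1, n2, e1, e2, e3, e4, e5, e6, e7⟩
      · exact Or.inl (Der.ask false p q' y.1 c next l n h1 h2 h)
      · refine Or.inr ⟨γ, st0, p2, next', r, c :: l1, l2, n1 + 1, n2, e1,
          Der.ask true p q' p2 c next l1 n1 h1 h2 e2, e3, e4, e5, ?_, by omega⟩
        rw [e6, List.cons_append]
    | push _ q' _ γ next l n _ h1 h2 h3 =>
      rcases ih q' (γ :: st) l n y (by omega) h3 with
        h | ⟨γ', st0, p2, next', r, l1, l2, n1, n2, e1, e2, e3, e4, e5, e6, e7⟩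
      · exact Or.inl (Der.pushopen p q' y.1 γ next l n h1 h2 h)
      · obtain ⟨rfl, rfl⟩ := List.cons.inj e1
        rcases ih r st l2 n2 y (by omega) e5 with
          h | ⟨γ2, st1, p3, next2, r2, l3, l4, n3, n4, f1, f2, f3, f4, f5, f6, f7⟩
        · left
          have h4 := Der.pushpop false p q' p2 r y.1 γ next next' l1 l2 n1 n2 h1 h2 e2 e3 e4 h
          rw [← e6] at h4
          have e : n1 + n2 + 2 = n + 1 := by omega
          rw [e] at h4
          exact h4
        · right
          refine ⟨γ2, st1, p3, next2, r2, l1 ++ l3, l4, n1 + n3 + 2, n4, f1,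
            Der.pushpop true p q' p2 r p3 γ next next' l1 l3 n1 n3 h1 h2 e2 e3 e4 f2, f3, f4, f5, ?_, by omega⟩
          rw [e6, f6, List.append_assoc]
    | pop _ q' st0 γ next l n _ h1 h2 h3 =>
      exact Or.inr ⟨γ, st0, p, next, q', [], l, 0, n, rfl, Der.nil true p, h1, h2, h3, rfl, by omega⟩

/-- Q1: computations and open derivations are the same. -/
theorem ends_iff_der (P : NPBP C A Q Γ) (I : C → A) (l : List C) (n : ℕ) (a : A) :
    P.Ends I l n a ↔ ∃ f, Der P I false P.start f l n ∧ P.act f = .out a := by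
  constructor
  · rintro ⟨y, h1, h2⟩
    rcases der_of_run (n + 1) P.start [] l n y (by omega) h1 with
      h | ⟨γ, st0, p2, next', r, l1, l2, n1, n2, e1, _⟩
    · exact ⟨y.1, h, h2⟩
    · exact absurd e1 (by simp)
  · rintro ⟨f, h1, h2⟩
    obtain ⟨st', _, h3⟩ := run_of_der h1 []
    exact ⟨_, h3, h2⟩

end Pool.Agent.Helper66.NS
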